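import Pool.Agent.H67.AG.T1

/-!
ABSOLUTE GAP (`MP_c59857_nt`), row EC: conditional expectation of a translate.
-/

set_option autoImplicit false

open MeasureTheory ProbabilityTheory Filter Topology Finset
open scoped Nat ENNReal

namespace Pool.Agent.H19.AG

open Pool.Agent.H67.AG

theorem bdd_integrable {Ω : Type} [MeasurableSpace Ω] (P : Measure Ω) [IsFiniteMeasure P]
    {f : Ω → ℝ} (hf : Measurable f) (hC : ∃ C, ∀ ω, |f ω| ≤ C) : Integrable f P := by
  obtain ⟨C, hC⟩ := hC
  exact Integrable.of_bound hf.aestronglyMeasurable C (ae_of_all _ fun ω => by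
    rw [Real.norm_eq_abs]; exact hC ω)

theorem symm_iter {Ω : Type} [MeasurableSpace Ω] (T : Ω ≃ᵐ Ω) (n : ℕ) (x : Ω) :
    T.symm^[n] (T^[n] x) = x :=
  Function.LeftInverse.iterate (fun x => T.symm_apply_apply x) n x

theorem comm_iter {Ω : Type} [MeasurableSpace Ω] (T : Ω ≃ᵐ Ω) (n W : ℕ) (x : Ω) :
    T.symm^[n] (T^[W] x) = T^[W] (T.symm^[n] x) := by
  have h : Function.Commute (T.symm : Ω → Ω) (T : Ω → Ω) := fun x => by
    rw [T.symm_apply_apply, T.apply_symm_apply]
  exact h.iterate_iterate n W x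

theorem comp_iter {Ω : Type} [MeasurableSpace Ω] (P : Measure Ω) (T : Ω ≃ᵐ Ω) (W : ℕ) (f : Ω → ℝ)
    (ω : Ω) : (P[f | Inv T W]) (T^[W] ω) = (P[f | Inv T W]) ω := by
  have h : Measurable[Inv T W] (P[f | Inv T W]) := stronglyMeasurable_condExp.measurable
  exact congrFun (MeasurableSpace.comp_eq_of_measurable_invariants h) ω

theorem pf_EC : T_EC := by
  intro Ω _ P _ T W n f hT hf hC
  refine ⟨?_, comp_iter P T W f⟩
  have hTn : MeasurePreserving (T^[n]) P P := hT.iterate n
  have hm : Inv T W ≤ ‹MeasurableSpace Ω› := MeasurableSpace.invariants_le _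
  have hfi : Integrable f P := bdd_integrable P hf hC
  have hfTi : Integrable (fun ω => f (T^[n] ω)) P :=
    bdd_integrable P (hf.comp hTn.measurable) ⟨hC.choose, fun ω => hC.choose_spec _⟩
  symm
  refine ae_eq_condExp_of_forall_setIntegral_eq hm hfTi ?_ ?_ ?_
  · intro s _ _
    have h : Integrable (P[f | Inv T W]) (Measure.map (T^[n]) P) := by
      rw [hTn.map_eq]; exact integrable_condExp
    exact (h.comp_measurable hTn.measurable).integrableOn
  · intro s hs _
    have hs' : MeasurableSet s ∧ (T^[W]) ⁻¹' s = s := hs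
    set B : Set Ω := (T.symm^[n]) ⁻¹' s with hB
    have hBm : MeasurableSet B := (T.symm.measurable.iterate n) hs'.1
    have hsB : s = (T^[n]) ⁻¹' B := by
      ext x
      simp only [hB, Set.mem_preimage, symm_iter]
    have hBi : MeasurableSet[Inv T W] B := by
      refine ⟨hBm, ?_⟩
      ext x
      simp only [hB, Set.mem_preimage, comm_iter]
      exact (Set.ext_iff.1 hs'.2) (T.symm^[n] x)
    rw [hsB]
    have e1 : ∫ x in (T^[n]) ⁻¹' B, (P[f | Inv T W]) (T^[n] x) ∂P =
        ∫ y in B, (P[f | Inv T W]) y ∂(Measure.map (T^[n]) P) := by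
      rw [setIntegral_map hBm ?_ hTn.measurable.aemeasurable]
      rw [hTn.map_eq]
      exact integrable_condExp.aestronglyMeasurable
    have e2 : ∫ x in (T^[n]) ⁻¹' B, f (T^[n] x) ∂P = ∫ y in B, f y ∂(Measure.map (T^[n]) P) := by
      rw [setIntegral_map hBm hf.aestronglyMeasurable hTn.measurable.aemeasurable]
    rw [e1, e2, hTn.map_eq]
    exact setIntegral_condExp hm hfi hBi
  · have h1 : Measurable[Inv T W] (P[f | Inv T W]) := stronglyMeasurable_condExp.measurable
    have h2 : @Measurable _ _ (Inv T W) (Inv T W) (T^[n]) := by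
      refine MeasurableSpace.measurable_invariants_of_semiconj hTn.measurable ?_
      intro x
      have h : Function.Commute (T : Ω → Ω) (T : Ω → Ω) := Function.Commute.refl _
      exact h.iterate_iterate n W x
    have h3 : Measurable[Inv T W] (fun ω => (P[f | Inv T W]) (T^[n] ω)) := h1.comp h2
    exact h3.stronglyMeasurable.aestronglyMeasurable

end Pool.Agent.H19.AG
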