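import Pool.Agent.H67.AG.T1

/-!
ABSOLUTE GAP (`MP_c59857_nt`), row AP: almost periodicity of finitely many functions.
-/

set_option autoImplicit false

open MeasureTheory ProbabilityTheory Filter Topology Finset
open scoped Nat ENNReal

namespace Pool.Agent.H19.AG

open Pool.Agent.H67.AG

section

variable {X : Type} [MeasurableSpace X] [StandardBorelSpace X]

omit [StandardBorelSpace X] in
theorem adm_mul (T : X ≃ᵐ X) (W k : ℕ) (H : X × X → ℝ) (h : Adm T W H) : Adm T (W * k) H := by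
  refine ⟨h.1, h.2.1, fun q => ?_⟩
  rw [Function.iterate_mul]
  induction k generalizing q with
  | zero => rfl
  | succ n ih =>
    rw [Function.iterate_succ_apply, ih, h.2.2]

/-- one function of the list -/
noncomputable def gterm (μ : Measure X) [IsFiniteMeasure μ] (Z : SA X) (T : X ≃ᵐ X)
    (H : X × X → ℝ) (t : ℕ) (q : X × X) : ℝ :=
  ∫ y, (H (T^[t] q.1, T^[t] y) - H (T^[t] q.2, T^[t] y)) ^ 2 ∂(kap μ Z q.1)

theorem gterm_nonneg (μ : Measure X) [IsFiniteMeasure μ] (Z : SA X) (T : X ≃ᵐ X)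
    (H : X × X → ℝ) (t : ℕ) (q : X × X) : 0 ≤ gterm μ Z T H t q :=
  integral_nonneg fun _ => sq_nonneg _

theorem gb_eq (μ : Measure X) [IsFiniteMeasure μ] (Z : SA X) (T : X ≃ᵐ X) (n W : ℕ)
    (H : Fin n → X × X → ℝ) (q : X × X) :
    Gb μ Z T n W H q = ∑ l : Fin n, ∑ t ∈ range W, gterm μ Z T (H l) t q := rfl

theorem gb_mono (μ : Measure X) [IsFiniteMeasure μ] (Z : SA X) (T : X ≃ᵐ X) (n W W' : ℕ)
    (hW : W ≤ W') (H : Fin n → X × X → ℝ) (q : X × X) :
    Gb μ Z T n W H q ≤ Gb μ Z T n W' H q := by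
  rw [gb_eq, gb_eq]
  refine Finset.sum_le_sum fun l _ => ?_
  exact Finset.sum_le_sum_of_subset_of_nonneg (Finset.range_mono hW)
    fun t _ _ => gterm_nonneg μ Z T (H l) t q

theorem gb_nonneg (μ : Measure X) [IsFiniteMeasure μ] (Z : SA X) (T : X ≃ᵐ X) (n W : ℕ)
    (H : Fin n → X × X → ℝ) (q : X × X) : 0 ≤ Gb μ Z T n W H q := by
  rw [gb_eq]
  exact Finset.sum_nonneg fun l _ => Finset.sum_nonneg fun t _ => gterm_nonneg μ Z T (H l) t q

theorem gb_append (μ : Measure X) [IsFiniteMeasure μ] (Z : SA X) (T : X ≃ᵐ X) (n m W : ℕ)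
    (H : Fin n → X × X → ℝ) (K : Fin m → X × X → ℝ) (q : X × X) :
    Gb μ Z T (n + m) W (Fin.append H K) q = Gb μ Z T n W H q + Gb μ Z T m W K q := by
  rw [gb_eq, gb_eq, gb_eq, Fin.sum_univ_add]
  simp only [Fin.append_left, Fin.append_right]

/-- a common list for finitely many sets -/
theorem common (μ : Measure X) [IsProbabilityMeasure μ] (T : X ≃ᵐ X) (Z : SA X) {ι : Type}
    (A : ι → Set X) (hA : ∀ j, NX μ T Z (A j)) (δ : ℝ) (hδ : 0 < δ) (s : Finset ι) :
    ∃ (n W : ℕ) (H : Fin n → X × X → ℝ) (ε : ℝ),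
    0 < W ∧ (∀ l, Adm T W (H l)) ∧ 0 < ε ∧
    ∀ E : Set (X × X), MeasurableSet E → (TT T) ⁻¹' E = E →
      (∀ᵐ q ∂(JJ μ Z), q ∈ E → Gb μ Z T n W H q ≤ ε) → ∀ j ∈ s,
      (JJ μ Z).real (E ∩ {q | ¬ (q.1 ∈ A j ↔ q.2 ∈ A j)}) ≤ δ * (JJ μ Z).real E := by
  classical
  induction s using Finset.induction_on with
  | empty =>
    exact ⟨0, 1, fun l => l.elim0, 1, one_pos, fun l => l.elim0, one_pos,
      fun _ _ _ _ j hj => absurd hj (Finset.notMem_empty j)⟩
  | insert a s _ ih =>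
    obtain ⟨n₁, W₁, H₁, ε₁, hW₁, hH₁, hε₁, h₁⟩ := ih
    obtain ⟨n₂, W₂, H₂, ε₂, hW₂, hH₂, hε₂, h₂⟩ := (hA a).2 δ hδ
    refine ⟨n₁ + n₂, W₁ * W₂, Fin.append H₁ H₂, min ε₁ ε₂, Nat.mul_pos hW₁ hW₂, ?_,
      lt_min hε₁ hε₂, ?_⟩
    · intro l
      refine Fin.addCases (fun i => ?_) (fun i => ?_) l
      · rw [Fin.append_left]; exact adm_mul T W₁ W₂ _ (hH₁ i)
      · rw [Fin.append_right, Nat.mul_comm]; exact adm_mul T W₂ W₁ _ (hH₂ i)
    · intro E hE hTE hG j hj
      rcases Finset.mem_insert.1 hj with rfl | hj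
      · refine h₂ E hE hTE ?_
        filter_upwards [hG] with q hq hqE
        have k1 := hq hqE
        rw [gb_append] at k1
        have k2 := gb_nonneg μ Z T n₁ (W₁ * W₂) H₁ q
        have k3 := gb_mono μ Z T n₂ W₂ (W₁ * W₂) (Nat.le_mul_of_pos_left _ hW₁) H₂ q
        have k4 := min_le_right ε₁ ε₂
        linarith
      · refine h₁ E hE hTE ?_ j hj
        filter_upwards [hG] with q hq hqE
        have k1 := hq hqE
        rw [gb_append] at k1
        have k2 := gb_nonneg μ Z T n₂ (W₁ * W₂) H₂ q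
        have k3 := gb_mono μ Z T n₁ W₁ (W₁ * W₂) (Nat.le_mul_of_pos_right _ hW₂) H₁ q
        have k4 := min_le_left ε₁ ε₂
        linarith

end

/-- quantisation -/
theorem count_eq (N : ℕ) (y : ℝ) (h0 : 0 ≤ y) (hN : y ≤ N) :
    ∑ j : Fin N, (if ((j : ℕ) : ℝ) + 1 ≤ y then (1 : ℝ) else 0) = ⌊y⌋₊ := by
  rw [Fin.sum_univ_eq_sum_range (fun j : ℕ => if ((j : ℕ) : ℝ) + 1 ≤ y then (1 : ℝ) else 0) N,
    Finset.sum_ite, Finset.sum_const_zero, add_zero, Finset.sum_const, nsmul_eq_mul, mul_one]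
  have e : (range N).filter (fun j : ℕ => ((j : ℕ) : ℝ) + 1 ≤ y) = range ⌊y⌋₊ := by
    ext j
    rw [Finset.mem_filter, Finset.mem_range, Finset.mem_range]
    have k : (((j + 1 : ℕ) : ℝ) ≤ y ↔ j + 1 ≤ ⌊y⌋₊) := (Nat.le_floor_iff h0).symm
    push_cast at k
    have k2 : ⌊y⌋₊ ≤ N := by
      have := Nat.floor_le_floor hN
      rwa [Nat.floor_natCast] at this
    rw [k]
    omega
  rw [e, card_range]

theorem quant (N : ℕ) (hN : 0 < N) (a b : ℝ) (ha : |a| ≤ 1) (hb : |b| ≤ 1) :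
    |a - b| ≤ 2 / N * (1 + ∑ j : Fin N, (if ¬ (((j : ℕ) : ℝ) + 1 ≤ N * (a + 1) / 2 ↔
      ((j : ℕ) : ℝ) + 1 ≤ N * (b + 1) / 2) then (1 : ℝ) else 0)) := by
  have hN' : (0 : ℝ) < N := by exact_mod_cast hN
  obtain ⟨ha1, ha2⟩ := abs_le.1 ha
  obtain ⟨hb1, hb2⟩ := abs_le.1 hb
  set u : ℝ := N * (a + 1) / 2 with hu
  set v : ℝ := N * (b + 1) / 2 with hv
  have u0 : 0 ≤ u := by
    have : 0 ≤ a + 1 := by linarith
    positivity
  have v0 : 0 ≤ v := by
    have : 0 ≤ b + 1 := by linarith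
    positivity
  have uN : u ≤ N := by
    have := mul_le_mul_of_nonneg_left (show (a + 1) ≤ 2 by linarith) hN'.le
    rw [hu]; linarith
  have vN : v ≤ N := by
    have := mul_le_mul_of_nonneg_left (show (b + 1) ≤ 2 by linarith) hN'.le
    rw [hv]; linarith
  have e1 := count_eq N u u0 uN
  have e2 := count_eq N v v0 vN
  have f1 := Nat.floor_le u0
  have f2 := Nat.lt_floor_add_one u
  have f3 := Nat.floor_le v0
  have f4 := Nat.lt_floor_add_one v
  have g : |((⌊u⌋₊ : ℕ) : ℝ) - ⌊v⌋₊| ≤ ∑ j : Fin N, (if ¬ (((j : ℕ) : ℝ) + 1 ≤ u ↔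
      ((j : ℕ) : ℝ) + 1 ≤ v) then (1 : ℝ) else 0) := by
    rw [← e1, ← e2, ← Finset.sum_sub_distrib]
    refine (Finset.abs_sum_le_sum_abs _ _).trans (Finset.sum_le_sum fun j _ => ?_)
    by_cases p : ((j : ℕ) : ℝ) + 1 ≤ u <;> by_cases q : ((j : ℕ) : ℝ) + 1 ≤ v <;> simp [p, q]
  have k : |u - v| ≤ 1 + ∑ j : Fin N, (if ¬ (((j : ℕ) : ℝ) + 1 ≤ u ↔
      ((j : ℕ) : ℝ) + 1 ≤ v) then (1 : ℝ) else 0) := by
    obtain ⟨g1, g2⟩ := abs_le.1 g
    rw [abs_le]
    constructor <;> linarith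
  have e3 : |a - b| = 2 / N * |u - v| := by
    have : a - b = 2 / N * (u - v) := by
      rw [hu, hv]; field_simp; ring
    rw [this, abs_mul, abs_of_pos (by positivity : (0 : ℝ) < 2 / N)]
  rw [e3]
  exact mul_le_mul_of_nonneg_left k (by positivity)

theorem pf_AP (h : T_NXA) (hq : T_QM) (hgi : T_GI) (hgp : T_GP) (hj : T_J2) : T_AP := by
  classical
  intro X _ _ μ _ T Z hT hZ n ph δ hph hb hδ
  have hprob : IsProbabilityMeasure (JJ μ Z) := (hj X μ Z).1
  have hTT : MeasurePreserving (TT T) (JJ μ Z) (JJ μ Z) := by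
    have := ((hq X μ T Z hT hZ).2 Set.univ MeasurableSet.univ Set.preimage_univ (by
      rw [probReal_univ]; exact one_pos)).2.1
    rwa [cond_univ] at this
  -- the parameters
  obtain ⟨N, hN⟩ := exists_nat_gt (4 * ((n : ℝ) + 1) / δ)
  have hN0 : 0 < N := by
    have : (0 : ℝ) < N := lt_trans (by positivity) hN
    exact_mod_cast this
  have hN' : (0 : ℝ) < N := by exact_mod_cast hN0
  have hNδ : 2 / (N : ℝ) ≤ δ / (2 * ((n : ℝ) + 1)) := by
    rw [div_lt_iff₀ hδ] at hN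
    rw [div_le_div_iff₀ hN' (by positivity)]
    nlinarith
  set δ' : ℝ := δ / (4 * ((n : ℝ) + 1)) with hδ'
  have hδ'0 : 0 < δ' := by positivity
  -- the level sets
  set A : Fin n × Fin N → Set X := fun s => {x | ((s.2 : ℕ) : ℝ) + 1 ≤ N * (ph s.1 x + 1) / 2}
    with hAdef
  have hA : ∀ s, NX μ T Z (A s) := by
    intro s
    refine (h X μ T Z hT hZ (A s)).1 ?_
    have m1 : Measurable[(nxt μ T Z).1] (fun x => N * (ph s.1 x + 1) / 2) :=
      (((hph s.1).add_const 1).const_mul (N : ℝ)).div_const 2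
    exact m1 measurableSet_Ici
  obtain ⟨k, W, H, ε, hW, hH, hε, hc⟩ := common μ T Z A hA δ' hδ'0 Finset.univ
  obtain ⟨hGm, hGinv⟩ := hgi X μ T Z k W H hT.toMeasurePreserving hZ hH
  set E₀ : Set (X × X) := {q | Gb μ Z T k W H q ≤ ε} with hE₀
  have hE₀m : MeasurableSet E₀ := measurableSet_le hGm measurable_const
  have hE₀inv : (TT T) ⁻¹' E₀ =ᵐ[JJ μ Z] E₀ := by
    filter_upwards [hGinv] with q hq
    have : (TT T q ∈ E₀) = (q ∈ E₀) := by
      simp only [hE₀, Set.mem_ofPred_eq, hq]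
    exact this
  obtain ⟨E, hE, hEE₀, hTE⟩ :=
    hTT.quasiMeasurePreserving.exists_preimage_eq_of_preimage_ae hE₀m.nullMeasurableSet hE₀inv
  have hEpos : 0 < (JJ μ Z).real E := by
    rw [measureReal_congr hEE₀]
    exact hgp X μ T Z k W H ε hT.toMeasurePreserving hZ hH hε
  have hEG : ∀ᵐ q ∂(JJ μ Z), q ∈ E → Gb μ Z T k W H q ≤ ε := by
    filter_upwards [hEE₀.mem_iff] with q hq hqE
    exact hq.1 hqE
  have hcE := hc E hE hTE hEG
  refine ⟨E, hE, hTE, hEpos, ?_⟩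
  -- the mismatch sets
  set B : Fin n × Fin N → Set (X × X) := fun s => {q | ¬ (q.1 ∈ A s ↔ q.2 ∈ A s)} with hB
  have hBm : ∀ s, MeasurableSet (B s) := by
    intro s
    have m1 : MeasurableSet (A s) := (hA s).1
    have m2 : MeasurableSet {q : X × X | q.1 ∈ A s} := measurable_fst m1
    have m3 : MeasurableSet {q : X × X | q.2 ∈ A s} := measurable_snd m1
    have e : B s = symmDiff {q : X × X | q.1 ∈ A s} {q : X × X | q.2 ∈ A s} := by
      ext q
      simp only [hB, Set.mem_ofPred_eq, Set.mem_symmDiff]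
      tauto
    rw [e]
    exact m2.symmDiff m3
  have hphm : ∀ i, Measurable (ph i) := fun i => (hph i).mono (nxt μ T Z).2 le_rfl
  have one : ∀ i, ∫ q in E, |ph i q.1 - ph i q.2| ∂(JJ μ Z) ≤
      (2 / N + 2 * δ') * (JJ μ Z).real E := by
    intro i
    have b1 : ∀ q : X × X, |ph i q.1 - ph i q.2| ≤
        2 / N * (1 + ∑ j : Fin N, (B (i, j)).indicator (fun _ => (1 : ℝ)) q) := by
      intro q
      refine (quant N hN0 (ph i q.1) (ph i q.2) (hb i _) (hb i _)).trans (le_of_eq ?_)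
      refine congrArg (fun z : ℝ => 2 / (N : ℝ) * (1 + z)) (Finset.sum_congr rfl fun j _ => ?_)
      rw [Set.indicator_apply]
      rfl
    have i1 : ∀ j : Fin N, Integrable ((B (i, j)).indicator (fun _ => (1 : ℝ)))
        ((JJ μ Z).restrict E) := fun j => (integrable_const _).indicator (hBm _)
    have i2 : Integrable (fun q : X × X =>
        2 / (N : ℝ) * (1 + ∑ j : Fin N, (B (i, j)).indicator (fun _ => (1 : ℝ)) q))
        ((JJ μ Z).restrict E) :=
      ((integrable_const _).add (integrable_finsetSum _ fun j _ => i1 j)).const_mul _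
    have i3 : Integrable (fun q : X × X => |ph i q.1 - ph i q.2|) ((JJ μ Z).restrict E) := by
      refine Integrable.of_bound (C := 2) ?_ (ae_of_all _ fun q => ?_)
      · exact (((hphm i).comp measurable_fst).sub
          ((hphm i).comp measurable_snd)).abs.aestronglyMeasurable
      · rw [Real.norm_eq_abs, abs_abs]
        have := abs_sub (ph i q.1) (ph i q.2)
        have := hb i q.1
        have := hb i q.2
        linarith
    have e1 : ∫ q in E, 2 / (N : ℝ) *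
          (1 + ∑ j : Fin N, (B (i, j)).indicator (fun _ => (1 : ℝ)) q) ∂(JJ μ Z) =
        2 / N * ((JJ μ Z).real E + ∑ j : Fin N, (JJ μ Z).real (E ∩ B (i, j))) := by
      rw [integral_const_mul, integral_add (integrable_const _)
        (integrable_finsetSum _ fun j _ => i1 j), integral_finsetSum _ fun j _ => i1 j]
      rw [setIntegral_const, smul_eq_mul, mul_one]
      refine congrArg (fun z : ℝ => 2 / (N : ℝ) * ((JJ μ Z).real E + z))
        (Finset.sum_congr rfl fun j _ => ?_)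
      rw [integral_indicator (hBm _), setIntegral_const, smul_eq_mul, mul_one,
        measureReal_restrict_apply (hBm _), Set.inter_comm]
    have e2 : ∑ j : Fin N, (JJ μ Z).real (E ∩ B (i, j)) ≤ N * (δ' * (JJ μ Z).real E) := by
      refine (Finset.sum_le_sum fun j _ => hcE (i, j) (Finset.mem_univ _)).trans (le_of_eq ?_)
      rw [Finset.sum_const, Finset.card_univ, Fintype.card_fin, nsmul_eq_mul]
    calc ∫ q in E, |ph i q.1 - ph i q.2| ∂(JJ μ Z)
        ≤ ∫ q in E, 2 / (N : ℝ) *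
          (1 + ∑ j : Fin N, (B (i, j)).indicator (fun _ => (1 : ℝ)) q) ∂(JJ μ Z) :=
          integral_mono i3 i2 b1
      _ = 2 / N * ((JJ μ Z).real E + ∑ j : Fin N, (JJ μ Z).real (E ∩ B (i, j))) := e1
      _ ≤ 2 / N * ((JJ μ Z).real E + N * (δ' * (JJ μ Z).real E)) := by
          refine mul_le_mul_of_nonneg_left ?_ (by positivity)
          linarith
      _ = (2 / N + 2 * δ') * (JJ μ Z).real E := by
          field_simp
  calc ∑ i, ∫ q in E, |ph i q.1 - ph i q.2| ∂(JJ μ Z)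
      ≤ ∑ _i : Fin n, (2 / N + 2 * δ') * (JJ μ Z).real E := Finset.sum_le_sum fun i _ => one i
    _ = n * ((2 / N + 2 * δ') * (JJ μ Z).real E) := by
        rw [Finset.sum_const, Finset.card_univ, Fintype.card_fin, nsmul_eq_mul]
    _ ≤ n * ((δ / (2 * ((n : ℝ) + 1)) + 2 * δ') * (JJ μ Z).real E) := by
        refine mul_le_mul_of_nonneg_left (mul_le_mul_of_nonneg_right ?_ hEpos.le) (by positivity)
        linarith
    _ = n / ((n : ℝ) + 1) * (δ * (JJ μ Z).real E) := by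
        rw [hδ']
        field_simp
        ring
    _ ≤ 1 * (δ * (JJ μ Z).real E) := by
        refine mul_le_mul_of_nonneg_right ?_ (by positivity)
        rw [div_le_one (by positivity)]
        linarith
    _ = δ * (JJ μ Z).real E := one_mul _

end Pool.Agent.H19.AG
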