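import Pool.Agent.H64.AG.Defs
import Pool.Agent.H64.AK.CCC

/-! # The countable chain condition for finite free sets -/

set_option autoImplicit false

open Cardinal

namespace Pool.Agent.H19.AG

open Pool.Agent.H64.AG Pool.Agent.H64.AK Pool.Agent.H60.CP

theorem cc (hSZ : T_SZ) : T_CC := by
  intro Y _ _ hP S Bad z h S₀ c hh hc hS0 hcnt hbad A p hA hfree
  classical
  have huniv : ¬ (Set.univ : Set A).Countable := by
    rw [Set.countable_univ_iff]
    exact hA
  obtain ⟨m, hA1⟩ := pig huniv (fun b => (p b).card)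
  obtain ⟨A2, hA21, hA2, hd⟩ := delta (Finset.range m) hA1 (fun b (j : ℕ) => (p b).toList[j]?)
  have hcard : ∀ b ∈ A2, (p b).card = m := fun b hb => (hA21 hb).2
  set N : Set ℕ := {j | j < m ∧ ∀ v, {x | x ∈ A2 ∧ (p x).toList[j]? = v}.Countable} with hN
  have hNfin : Finite N := ((Set.finite_Iio m).subset (fun j hj => hj.1)).to_subtype
  set Z : Set A := ⋃ j ∈ N, ⋃ s ∈ S₀, {x | x ∈ A2 ∧ (p x).toList[j]? = some s} with hZ
  have hZc : Z.Countable := by
    refine Set.Countable.biUnion (Set.to_countable _) ?_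
    intro j hj
    refine Set.Countable.biUnion hS0 ?_
    intro s _
    exact hj.2 _
  have hA3 : ¬ (A2 \ Z).Countable := by
    intro h0
    apply hA2
    refine (h0.union hZc).mono ?_
    intro x hx
    by_cases hxZ : x ∈ Z
    · exact Or.inr hxZ
    · exact Or.inl ⟨hx, hxZ⟩
  have hval : ∀ (b : (A2 \ Z : Set A)) (i : N), ∃ s, (p b.1).toList[i.1]? = some s ∧ s ∉ S₀ := by
    rintro ⟨b, hb, hbZ⟩ ⟨i, hi⟩
    have hlen : i < (p b).toList.length := by
      rw [Finset.length_toList, hcard b hb]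
      exact hi.1
    refine ⟨(p b).toList[i], List.getElem?_eq_getElem hlen, ?_⟩
    intro hs
    apply hbZ
    refine Set.mem_biUnion hi ?_
    exact Set.mem_biUnion hs ⟨hb, List.getElem?_eq_getElem hlen⟩
  choose s hs hs0 using hval
  have hA3' : ¬ Countable (A2 \ Z : Set A) := by
    rwa [Set.countable_coe_iff]
  obtain ⟨b, b', hne, hall⟩ := hSZ Y hP N N (A2 \ Z : Set A) (fun b i => z (s b i))
    (fun b j => h (s b j)) c hA3' (fun b j => hh _) hc (by
      intro b j i
      have hsub : {b' | c / 2 ≤ |h (s b j) (z (s b' i))|} ⊆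
          ⋃ t ∈ {t | c / 2 ≤ |h (s b j) (z t)|}, {b' | s b' i = t} := by
        intro b' hb'
        exact Set.mem_biUnion (show s b' i ∈ {t | c / 2 ≤ |h (s b j) (z t)|} from hb') rfl
      refine Set.Countable.mono hsub ((hcnt (s b j)).biUnion ?_)
      intro t _
      refine ((i.2.2 (some t)).preimage (f := fun b' : (A2 \ Z : Set A) => b'.1)
        Subtype.val_injective).mono ?_
      intro b' hb'
      refine ⟨b'.2.1, ?_⟩
      rw [hs b' i, show s b' i = t from hb'])
  refine ⟨b.1, b'.1, fun h0 => hne (Subtype.ext h0), ?_⟩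
  intro s0 hs0' t0 ht0' hB
  obtain ⟨i, hi, hie⟩ := exists_toList hs0'
  rw [hcard b.1 b.2.1] at hi
  obtain ⟨j, hj, hje⟩ := exists_toList ht0'
  rw [hcard b'.1 b'.2.1] at hj
  rcases hd i (Finset.mem_range.2 hi) with ⟨v, hv⟩ | hv
  · have h1 : (p b'.1).toList[i]? = some s0 :=
      (hv b'.1 b'.2.1).trans ((hv b.1 b.2.1).symm.trans hie)
    exact hfree b'.1 s0 (toList_some h1) t0 ht0' hB
  rcases hd j (Finset.mem_range.2 hj) with ⟨w, hw⟩ | hw
  · have h1 : (p b.1).toList[j]? = some t0 :=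
      (hw b.1 b.2.1).trans ((hw b'.1 b'.2.1).symm.trans hje)
    exact hfree b.1 s0 hs0' t0 (toList_some h1) hB
  have e1 : s b ⟨i, hi, hv⟩ = s0 := by
    have := (hs b ⟨i, hi, hv⟩).symm.trans hie
    simpa using this
  have e2 : s b' ⟨j, hj, hw⟩ = t0 := by
    have := (hs b' ⟨j, hj, hw⟩).symm.trans hje
    simpa using this
  have f1 := hs0 b ⟨i, hi, hv⟩
  have f2 := hs0 b' ⟨j, hj, hw⟩
  have f3 := (hall ⟨j, hj, hw⟩ ⟨i, hi, hv⟩).1
  have f4 := (hall ⟨i, hi, hv⟩ ⟨j, hj, hw⟩).2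
  simp only [e1, e2] at f1 f2 f3 f4
  rcases hbad s0 t0 hB with h1 | h1 | h1 | h1
  · exact f1 h1
  · exact f2 h1
  · exact absurd h1 (not_le.2 f3)
  · exact absurd h1 (not_le.2 f4)

end Pool.Agent.H19.AG
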