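import Pool.Agent.H67.AG.T1

/-!
ABSOLUTE GAP (`MP_c59857_nt`), row CR: change of measure for the rational sets.
-/

set_option autoImplicit false

open MeasureTheory ProbabilityTheory Filter Topology Finset
open scoped Nat ENNReal

namespace Pool.Agent.H19.AG

open Pool.Agent.H67.AG

/-- small integrals of the differences give convergence in measure -/
theorem inMeasure_of_integral {Ω : Type} [MeasurableSpace Ω] (P : Measure Ω)
    [IsFiniteMeasure P] (a : ℕ → Ω → ℝ) (A : Ω → ℝ) (ha : ∀ n, Integrable (a n) P)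
    (hA : Integrable A P) (h : ∀ n : ℕ, ∫ ω, |A ω - a n ω| ∂P ≤ 1 / ((n : ℝ) + 1)) :
    TendstoInMeasure P a atTop A := by
  refine tendstoInMeasure_of_tendsto_eLpNorm (p := 1) one_ne_zero
    (fun n => (ha n).aestronglyMeasurable) hA.aestronglyMeasurable ?_
  have e : ∀ n, eLpNorm (a n - A) 1 P ≤ ENNReal.ofReal (1 / ((n : ℝ) + 1)) := by
    intro n
    rw [eLpNorm_one_eq_lintegral_enorm, ← ofReal_integral_norm_eq_lintegral_enorm ((ha n).sub hA)]
    refine ENNReal.ofReal_le_ofReal (le_trans (le_of_eq ?_) (h n))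
    refine integral_congr_ae (ae_of_all _ fun ω => ?_)
    change ‖a n ω - A ω‖ = |A ω - a n ω|
    rw [Real.norm_eq_abs, abs_sub_comm]
  have l : Tendsto (fun n : ℕ => ENNReal.ofReal (1 / ((n : ℝ) + 1))) atTop (𝓝 0) := by
    have l1 : Tendsto (fun n : ℕ => 1 / ((n : ℝ) + 1)) atTop (𝓝 0) :=
      tendsto_one_div_add_atTop_nhds_zero_nat
    have l2 := ENNReal.tendsto_ofReal l1
    rwa [ENNReal.ofReal_zero] at l2
  exact tendsto_of_tendsto_of_tendsto_of_le_of_le tendsto_const_nhds l (fun n => zero_le) e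

theorem pf_CR (h1 : T_CH) (h2 : T_LV) : T_CR := by
  intro Ω _ P ν _ _ T f hT hTν hνP hf hC
  have hp : ∀ n : ℕ, (0 : ℝ) < 1 / ((n : ℝ) + 1) := fun n => by positivity
  choose u hu using fun n : ℕ => h2 Ω P T f _ hf hC (hp n)
  choose v hv using fun n : ℕ => h2 Ω ν T f _ hf hC (hp n)
  set W : ℕ → ℕ := fun n => (max (u n) (v n)) ! with hW
  have hW0 : ∀ n, 0 < W n := fun n => Nat.factorial_pos _
  have hWu : ∀ n, (u n) ! ∣ W n := fun n => Nat.factorial_dvd_factorial (le_max_left _ _)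
  have hWv : ∀ n, (v n) ! ∣ W n := fun n => Nat.factorial_dvd_factorial (le_max_right _ _)
  have c1 : TendstoInMeasure P (fun n => P[f | Inv T (W n)]) atTop (P[f | Rt T]) :=
    inMeasure_of_integral P _ _ (fun n => integrable_condExp) integrable_condExp
      (fun n => hu n (W n) (hW0 n) (hWu n))
  have c2 : TendstoInMeasure ν (fun n => ν[f | Inv T (W n)]) atTop (ν[f | Rt T]) :=
    inMeasure_of_integral ν _ _ (fun n => integrable_condExp) integrable_condExp
      (fun n => hv n (W n) (hW0 n) (hWv n))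
  obtain ⟨ns, hns, hns'⟩ := c1.exists_seq_tendsto_ae
  have c3 : TendstoInMeasure ν (fun i => ν[f | Inv T (W (ns i))]) atTop (ν[f | Rt T]) := by
    intro ε hε
    exact (c2 ε hε).comp hns.tendsto_atTop
  obtain ⟨ms, hms, hms'⟩ := c3.exists_seq_tendsto_ae
  have e : ∀ᵐ ω ∂ν, ∀ n, (ν[f | Inv T (W n)]) ω = (P[f | Inv T (W n)]) ω :=
    ae_all_iff.2 fun n => h1 Ω P ν T (W n) f hT hTν hνP hf hC
  filter_upwards [hνP hns', hms', e] with ω k1 k2 k3
  have k4 := k1.comp hms.tendsto_atTop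
  have k5 : Tendsto (fun i => (P[f | Inv T (W (ns (ms i)))]) ω) atTop (𝓝 ((ν[f | Rt T]) ω)) := by
    refine k2.congr fun i => ?_
    exact k3 _
  exact tendsto_nhds_unique k5 k4

end Pool.Agent.H19.AG
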