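import Pool.Agent.H67.AG.T1

/-!
ABSOLUTE GAP (`MP_c59857_nt`), row DU: dual form of the naturality.
-/

set_option autoImplicit false

open MeasureTheory ProbabilityTheory Filter Topology Finset
open scoped Nat ENNReal

namespace Pool.Agent.H19.AG

open Pool.Agent.H67.AG

theorem rt_le {Ω : Type} [mΩ : MeasurableSpace Ω] (T : Ω ≃ᵐ Ω) : Rt T ≤ mΩ :=
  iSup_le fun _ => MeasurableSpace.invariants_le _

theorem bdd_int {Ω : Type} [MeasurableSpace Ω] (P : Measure Ω) [IsFiniteMeasure P]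
    {f : Ω → ℝ} (hf : Measurable f) (hC : ∃ C, ∀ ω, |f ω| ≤ C) : Integrable f P := by
  obtain ⟨C, hC⟩ := hC
  exact Integrable.of_bound hf.aestronglyMeasurable C (ae_of_all _ fun ω => by
    rw [Real.norm_eq_abs]; exact hC ω)

/-- pulling out a measurable factor under the integral -/
theorem pull {Ω : Type} {m mΩ : MeasurableSpace Ω} (hm : m ≤ mΩ) (P : Measure Ω)
    [IsProbabilityMeasure P] (a b : Ω → ℝ) (ha : StronglyMeasurable[m] a)
    (hab : Integrable (fun ω => a ω * b ω) P) (hb : Integrable b P) :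
    ∫ ω, a ω * b ω ∂P = ∫ ω, a ω * (P[b | m]) ω ∂P := by
  have h1 : P[(fun ω => a ω * b ω) | m] =ᵐ[P] fun ω => a ω * (P[b | m]) ω :=
    condExp_mul_of_stronglyMeasurable_left ha hab hb
  rw [← integral_condExp hm, integral_congr_ae h1]

theorem pf_DU (h : T_NR) : T_DU := by
  intro Ω Ω' _ _ P _ P' _ T T' g ψ hT hT' hF hψ hψ01
  have hg : MeasurePreserving g P P' := hF.1
  have hψm : Measurable ψ := hψ.mono (rt_le T) le_rfl
  -- the image of the measure with density `ψ`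
  set m1 : Measure Ω' := (P.withDensity fun ω => ENNReal.ofReal (ψ ω)).map g with hm1
  have hle : m1 ≤ P' := by
    rw [hm1, ← hg.map_eq]
    refine Measure.map_mono ?_ hg.measurable
    refine Measure.le_iff.2 fun s hs => ?_
    rw [withDensity_apply _ hs]
    calc ∫⁻ ω in s, ENNReal.ofReal (ψ ω) ∂P ≤ ∫⁻ _ in s, 1 ∂P := by
          refine lintegral_mono fun ω => ?_
          rw [← ENNReal.ofReal_one]
          exact ENNReal.ofReal_le_ofReal (hψ01 ω).2
      _ = P s := by rw [setLIntegral_one]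
  have hac : m1 ≪ P' := Measure.absolutelyContinuous_of_le hle
  have hfin : IsFiniteMeasure m1 := isFiniteMeasure_of_le P' hle
  set ψ1 : Ω' → ℝ := fun ω => (m1.rnDeriv P' ω).toReal with hψ1
  have hψ1m : Measurable ψ1 := (Measure.measurable_rnDeriv m1 P').ennreal_toReal
  have hψ1b : ∀ᵐ ω ∂P', 0 ≤ ψ1 ω ∧ ψ1 ω ≤ 1 := by
    filter_upwards [Measure.rnDeriv_le_one_of_le hle] with ω hω
    refine ⟨ENNReal.toReal_nonneg, ?_⟩
    have h1 : m1.rnDeriv P' ω ≤ 1 := hω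
    have h2 := ENNReal.toReal_mono ENNReal.one_ne_top h1
    rwa [ENNReal.toReal_one] at h2
  have hψ1i : Integrable ψ1 P' := Integrable.of_bound hψ1m.aestronglyMeasurable 1 (by
    filter_upwards [hψ1b] with ω hω
    rw [Real.norm_eq_abs, abs_of_nonneg hω.1]; exact hω.2)
  -- the transport formula
  have key : ∀ k : Ω' → ℝ, Measurable k → ∫ ω, ψ ω * k (g ω) ∂P = ∫ ω, ψ1 ω * k ω ∂P' := by
    intro k hk
    have e1 : ∫ ω, ψ1 ω * k ω ∂P' = ∫ ω, k ω ∂m1 := integral_toReal_rnDeriv_mul hac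
    have e2 : ∫ ω, k ω ∂m1 = ∫ ω, k (g ω) ∂(P.withDensity fun ω => ENNReal.ofReal (ψ ω)) := by
      rw [hm1, integral_map hg.measurable.aemeasurable hk.aestronglyMeasurable]
    have e3 : ∫ ω, k (g ω) ∂(P.withDensity fun ω => ENNReal.ofReal (ψ ω)) =
        ∫ ω, ψ ω * k (g ω) ∂P := by
      rw [integral_withDensity_eq_integral_toReal_smul (hψm.ennreal_ofReal)
        (ae_of_all _ fun ω => ENNReal.ofReal_lt_top)]
      refine integral_congr_ae (ae_of_all _ fun ω => ?_)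
      change (ENNReal.ofReal (ψ ω)).toReal • k (g ω) = ψ ω * k (g ω)
      rw [ENNReal.toReal_ofReal (hψ01 ω).1, smul_eq_mul]
    rw [e1, e2, e3]
  -- the dual function
  set ψ2 : Ω' → ℝ := P'[ψ1 | Rt T'] with hψ2
  have hψ2m : Measurable[Rt T'] ψ2 := stronglyMeasurable_condExp.measurable
  have hψ2b : ∀ᵐ ω ∂P', 0 ≤ ψ2 ω ∧ ψ2 ω ≤ 1 := by
    have a1 : (0 : Ω' → ℝ) ≤ᵐ[P'] ψ2 := condExp_nonneg (by
      filter_upwards [hψ1b] with ω hω using hω.1)
    have a2 : ψ2 ≤ᵐ[P'] P'[(fun _ => (1 : ℝ)) | Rt T'] := condExp_mono hψ1i (integrable_const _) (by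
      filter_upwards [hψ1b] with ω hω using hω.2)
    rw [condExp_const (rt_le T')] at a2
    filter_upwards [a1, a2] with ω h1 h2 using ⟨h1, h2⟩
  have hψ2i : Integrable ψ2 P' := integrable_condExp
  refine ⟨fun ω => max 0 (min 1 (ψ2 ω)), ?_, ?_, ?_⟩
  · exact Measurable.max measurable_const (Measurable.min measurable_const hψ2m)
  · intro ω
    exact ⟨le_max_left _ _, max_le zero_le_one (min_le_left _ _)⟩
  · intro k hk hC
    have hki : Integrable k P' := bdd_int P' hk hC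
    obtain ⟨C, hC'⟩ := hC
    have hkg : Integrable (fun ω => k (g ω)) P :=
      bdd_int P (hk.comp hg.measurable) ⟨C, fun ω => hC' _⟩
    set h2 : Ω' → ℝ := P'[k | Rt T'] with hh2
    have hh2m : Measurable[Rt T'] h2 := stronglyMeasurable_condExp.measurable
    have hh2i : Integrable h2 P' := integrable_condExp
    -- first half
    have i1 : Integrable (fun ω => ψ ω * k (g ω)) P := by
      refine hkg.bdd_mul (c := 1) hψm.aestronglyMeasurable (ae_of_all _ fun ω => ?_)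
      rw [Real.norm_eq_abs, abs_of_nonneg (hψ01 ω).1]; exact (hψ01 ω).2
    have e1 : ∫ ω, ψ ω * k (g ω) ∂P = ∫ ω, ψ ω * (P[fun ω => k (g ω) | Rt T]) ω ∂P :=
      pull (rt_le T) P ψ (fun ω => k (g ω)) hψ.stronglyMeasurable i1 hkg
    have e2 : ∫ ω, ψ ω * (P[fun ω => k (g ω) | Rt T]) ω ∂P = ∫ ω, ψ ω * h2 (g ω) ∂P := by
      refine integral_congr_ae ?_
      filter_upwards [h Ω Ω' P P' T T' g k hT hT' hF hk ⟨C, hC'⟩] with ω hω
      rw [hω]
    have e3 : ∫ ω, ψ ω * h2 (g ω) ∂P = ∫ ω, ψ1 ω * h2 ω ∂P' :=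
      key h2 (hh2m.mono (rt_le T') le_rfl)
    -- second half
    have i2 : Integrable (fun ω => h2 ω * ψ1 ω) P' := by
      refine hh2i.mul_bdd (c := 1) hψ1m.aestronglyMeasurable ?_
      filter_upwards [hψ1b] with ω hω
      rw [Real.norm_eq_abs, abs_of_nonneg hω.1]; exact hω.2
    have e4 : ∫ ω, h2 ω * ψ1 ω ∂P' = ∫ ω, h2 ω * ψ2 ω ∂P' :=
      pull (rt_le T') P' h2 ψ1 hh2m.stronglyMeasurable i2 hψ1i
    have i3 : Integrable (fun ω => ψ2 ω * k ω) P' := by
      refine hki.bdd_mul (c := 1) hψ2i.aestronglyMeasurable ?_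
      filter_upwards [hψ2b] with ω hω
      rw [Real.norm_eq_abs, abs_of_nonneg hω.1]; exact hω.2
    have e5 : ∫ ω, ψ2 ω * k ω ∂P' = ∫ ω, ψ2 ω * h2 ω ∂P' :=
      pull (rt_le T') P' ψ2 k hψ2m.stronglyMeasurable i3 hki
    have e6 : ∫ ω, max 0 (min 1 (ψ2 ω)) * k ω ∂P' = ∫ ω, ψ2 ω * k ω ∂P' := by
      refine integral_congr_ae ?_
      filter_upwards [hψ2b] with ω hω
      rw [min_eq_right hω.2, max_eq_right hω.1]
    calc ∫ ω, ψ ω * k (g ω) ∂P = ∫ ω, ψ1 ω * h2 ω ∂P' := by rw [e1, e2, e3]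
      _ = ∫ ω, h2 ω * ψ1 ω ∂P' := by
        refine integral_congr_ae (ae_of_all _ fun ω => mul_comm _ _)
      _ = ∫ ω, h2 ω * ψ2 ω ∂P' := e4
      _ = ∫ ω, ψ2 ω * h2 ω ∂P' := by
        refine integral_congr_ae (ae_of_all _ fun ω => mul_comm _ _)
      _ = ∫ ω, ψ2 ω * k ω ∂P' := e5.symm
      _ = ∫ ω, max 0 (min 1 (ψ2 ω)) * k ω ∂P' := e6.symm

end Pool.Agent.H19.AG
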