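import Pool.Agent.H64.AG.Defs

/-! # An almost biorthogonal uncountable subfamily -/

set_option autoImplicit false

open Cardinal

namespace Pool.Agent.H19.AG

open Pool.Agent.H64.AG Pool.Agent.H64.AK Pool.Agent.H60.CP Pool.Agent.H20.SL

theorem mn1 (hGF : T_GF) (hCC : T_CC) (hTP1 : T_TP1) (hTP : T_TP) : T_MN1 := by
  intro hMA X _ _ _ hCT h z hh hne hcnt
  have hPCT : PCT (X × X) := hTP (X × X) (hTP1 X X hCT hCT)
  have hn : ∀ δ, ∃ n : ℕ, 1 / ((n : ℝ) + 1) < |df (h δ) (z δ)| := fun δ =>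
    exists_nat_one_div_lt (abs_pos.2 (hne δ))
  choose n hn using hn
  obtain ⟨k, hI0⟩ := pig (OmegaOne.unc (W := Om)) n
  set I0 : Set Om := {c | c ∈ Set.univ ∧ n c = k} with hI0def
  set ε : ℝ := 1 / ((k : ℝ) + 1) with hεdef
  have hε : 0 < ε := by
    rw [hεdef]
    positivity
  have hεn : ∀ δ ∈ I0, ε ≤ |df (h δ) (z δ)| := by
    intro δ hδ
    have h1 := hn δ
    rw [hδ.2] at h1
    exact h1.le
  let Bad : I0 → I0 → Prop := fun s t =>
    s ≠ t ∧ (ε / 2 ≤ |df (h s) (z t)| ∨ ε / 2 ≤ |df (h t) (z s)|)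
  have hFCC : FCC Bad := by
    refine hCC (X × X) hPCT I0 Bad (fun s => z s) (fun s => df (h s)) ∅ (ε / 2)
      (fun s => df_continuous (hh s)) (by positivity) Set.countable_empty ?_ ?_
    · intro s
      refine ((hcnt s).preimage (f := fun t : I0 => t.1) Subtype.val_injective).mono ?_
      intro t ht
      have ht' : ε / 2 / 2 ≤ |df (h s) (z t)| := ht
      show df (h s) (z t) ≠ 0
      intro h0
      rw [h0, abs_zero] at ht'
      linarith
    · intro s t hB
      exact Or.inr (Or.inr hB.2)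
  obtain ⟨G, hG, -, hGu⟩ := hGF hMA I0 Bad (fun s t hB => ⟨hB.1.symm, hB.2.symm⟩) hFCC
    Empty (fun k => k.elim) (by simp) (fun k => k.elim) Set.univ (by
      rw [Set.countable_univ_iff, Set.countable_coe_iff]
      exact hI0) (by
      rw [Cardinal.mk_univ]
      exact (Cardinal.mk_set_le I0).trans_eq mk_Om) (fun s _ hB => hB.1 rfl)
  rw [Set.inter_univ] at hGu
  refine ⟨Subtype.val '' G, ε, hε, ?_, ?_, ?_⟩
  · intro h0
    exact hGu (Set.countable_of_injective_of_countable_image Subtype.val_injective.injOn h0)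
  · rintro _ ⟨s, _, rfl⟩
    exact hεn s.1 s.2
  · rintro _ ⟨s, hs, rfl⟩ _ ⟨t, ht, rfl⟩ hst
    by_contra hcon
    exact hG s hs t ht ⟨fun h0 => hst (congrArg Subtype.val h0), Or.inl (not_lt.1 hcon)⟩

end Pool.Agent.H19.AG
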