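import Pool.Agent.H64.AG.Defs

/-! # Closures of countable sets are separated by countably many functions -/

set_option autoImplicit false

open Cardinal

namespace Pool.Agent.H19.AG

open Pool.Agent.H64.AG Pool.Agent.H64.AK Pool.Agent.H60.CP Pool.Agent.H20.SL

theorem mon (hMN1 : T_MN1) (hMN2 : T_MN2) : T_MON := by
  intro hMA X _ _ _ hCT L l hs A hA
  by_contra hcon
  push Not at hcon
  choose x hx y hy hxy hne using hcon
  have hsep : ∀ δ, ∃ ξ, l ξ (x δ) ≠ l ξ (y δ) := by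
    intro δ
    by_contra h0
    push Not at h0
    exact hne δ (hs.sep _ _ h0)
  choose ξ hξ using hsep
  obtain ⟨I, ε, hε, hI, h1, h2⟩ := hMN1 hMA X hCT (fun δ => l (ξ δ)) (fun δ => (x δ, y δ))
    (fun δ => hs.cont _ (hs.mem _)) (fun δ => sub_ne_zero.2 (hξ δ)) (by
      intro δ
      refine (cIic (ξ δ)).mono ?_
      intro δ' hδ'
      by_contra h0
      exact hδ' (sub_eq_zero.2 (hxy δ' (ξ δ) (not_le.1 h0))))
  exact hMN2 hMA X L l hs A hA I ε (fun δ => l (ξ δ)) (fun δ => (x δ, y δ)) hε hI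
    (fun δ => hs.mem _) (fun δ => ⟨hx δ, hy δ⟩) h1 h2

end Pool.Agent.H19.AG
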