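import Pool.Agent.H67.AG.T1

/-!
ABSOLUTE GAP (`MP_c59857_nt`), row PW: from a power of `T ^ W` to `T ^ W`.
-/

set_option autoImplicit false

open MeasureTheory ProbabilityTheory Filter Topology Finset
open scoped Nat ENNReal

namespace Pool.Agent.H19.AG

open Pool.Agent.H67.AG

theorem inv_le_mul {Ω : Type} [MeasurableSpace Ω] (T : Ω ≃ᵐ Ω) (W d : ℕ) :
    Inv T W ≤ Inv T (W * d) := by
  intro s hs
  have hs' : MeasurableSet s ∧ (T^[W]) ⁻¹' s = s := hs
  refine ⟨hs'.1, ?_⟩
  rw [Function.iterate_mul]
  induction d with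
  | zero => rfl
  | succ n ih =>
    rw [Function.iterate_succ', Set.preimage_comp, hs'.2, ih]

theorem pf_PW (h : T_EC) : T_PW := by
  intro Ω _ P _ T W d f hT hf hC hW hd
  have hm : Inv T W ≤ ‹MeasurableSpace Ω› := MeasurableSpace.invariants_le _
  have hm' : Inv T (W * d) ≤ ‹MeasurableSpace Ω› := MeasurableSpace.invariants_le _
  set F : ℕ → Ω → ℝ := fun r ω' => f (T^[W * r] ω') with hF
  set H : ℕ → Ω → ℝ := fun r => P[F r | Inv T (W * d)] with hH
  set G : Ω → ℝ := P[f | Inv T (W * d)] with hG
  have hG2 : ∀ ω, G (T^[W * d] ω) = G ω := (h Ω P T (W * d) 0 f hT hf hC).2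
  have hGm : Measurable G := stronglyMeasurable_condExp.measurable.mono hm' le_rfl
  have hHG : ∀ r, H r =ᵐ[P] fun ω => G (T^[W * r] ω) := fun r =>
    (h Ω P T (W * d) (W * r) f hT hf hC).1
  -- the invariant version of the average
  set g : Ω → ℝ := fun ω => (∑ r ∈ range d, G (T^[W * r] ω)) / d with hg
  have hgm : Measurable g := by
    refine Measurable.div_const ?_ _
    refine Finset.measurable_sum _ fun r _ => ?_
    exact hGm.comp (T.measurable.iterate _)
  have hginv : ∀ ω, g (T^[W] ω) = g ω := by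
    intro ω
    have e1 : ∀ r, G (T^[W * r] (T^[W] ω)) = G (T^[W * (r + 1)] ω) := by
      intro r
      rw [← Function.iterate_add_apply, Nat.mul_succ]
    have e2 : ∑ r ∈ range d, G (T^[W * r] (T^[W] ω)) = ∑ r ∈ range d, G (T^[W * r] ω) := by
      rw [Finset.sum_congr rfl fun r _ => e1 r]
      have a := Finset.sum_range_succ (fun r => G (T^[W * r] ω)) d
      have b := Finset.sum_range_succ' (fun r => G (T^[W * r] ω)) d
      have c : G (T^[W * 0] ω) = G (T^[W * d] ω) := by
        rw [hG2 ω, Nat.mul_zero, Function.iterate_zero, id]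
      rw [c] at b
      linarith
    change (∑ r ∈ range d, G (T^[W * r] (T^[W] ω))) / (d : ℝ) = _
    rw [e2]
  have hgI : StronglyMeasurable[Inv T W] g := by
    have : Measurable[Inv T W] g := by
      rw [MeasurableSpace.measurable_invariants_dom]
      refine ⟨hgm, fun s _ => ?_⟩
      have e : g ∘ (T^[W]) = g := funext hginv
      rw [e]
    exact this.stronglyMeasurable
  have hgi : Integrable g P := by
    have hGi : Integrable G P := integrable_condExp
    refine Integrable.div_const ?_ _
    refine integrable_finsetSum _ fun r _ => ?_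
    exact (hT.iterate (W * r)).integrable_comp_of_integrable hGi
  have e1 : P[g | Inv T W] = g := condExp_of_stronglyMeasurable hm hgI hgi
  -- the average
  set S : Ω → ℝ := fun ω => (∑ r ∈ range d, H r ω) / d with hS
  have hSg : S =ᵐ[P] g := by
    have := ae_all_iff.2 hHG
    filter_upwards [this] with ω hω
    change (∑ r ∈ range d, H r ω) / (d : ℝ) = (∑ r ∈ range d, G (T^[W * r] ω)) / d
    rw [Finset.sum_congr rfl fun r _ => hω r]
  have hSf : S = (d : ℝ)⁻¹ • ∑ r ∈ range d, H r := by
    funext ω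
    rw [Pi.smul_apply, Finset.sum_apply, smul_eq_mul]
    change (∑ r ∈ range d, H r ω) / (d : ℝ) = _
    rw [div_eq_inv_mul]
  have e2 : P[S | Inv T W] =ᵐ[P] P[f | Inv T W] := by
    have a1 : P[S | Inv T W] =ᵐ[P] (d : ℝ)⁻¹ • P[∑ r ∈ range d, H r | Inv T W] := by
      rw [hSf]; exact condExp_smul _ _ _
    have a2 : P[∑ r ∈ range d, H r | Inv T W] =ᵐ[P] ∑ r ∈ range d, P[H r | Inv T W] :=
      condExp_finsetSum (fun r _ => integrable_condExp) _
    have a3 : ∀ r, P[H r | Inv T W] =ᵐ[P] P[f | Inv T W] := by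
      intro r
      have b1 : P[H r | Inv T W] =ᵐ[P] P[F r | Inv T W] :=
        condExp_condExp_of_le (inv_le_mul T W d) hm'
      have b2 := (h Ω P T W (W * r) f hT hf hC).1
      have b3 : ∀ ω, (P[f | Inv T W]) (T^[W * r] ω) = (P[f | Inv T W]) ω := by
        intro ω
        clear b1 b2
        induction r with
        | zero => rw [Nat.mul_zero, Function.iterate_zero, id]
        | succ n ih =>
          rw [Nat.mul_succ, Nat.add_comm, Function.iterate_add_apply]
          rw [(h Ω P T W 0 f hT hf hC).2]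
          exact ih
      filter_upwards [b1, b2] with ω h1 h2
      rw [h1]
      exact h2.trans (b3 ω)
    filter_upwards [a1, a2, ae_all_iff.2 a3] with ω h1 h2 h3
    rw [h1, Pi.smul_apply, h2, Finset.sum_apply, Finset.sum_congr rfl fun r _ => h3 r,
      Finset.sum_const, card_range, nsmul_eq_mul, smul_eq_mul, ← mul_assoc,
      inv_mul_cancel₀ (by exact_mod_cast hd.ne'), one_mul]
  have e3 : P[S | Inv T W] =ᵐ[P] g := by
    have := condExp_congr_ae (m := Inv T W) hSg
    rwa [e1] at this
  exact e2.symm.trans (e3.trans hSg.symm)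

end Pool.Agent.H19.AG
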